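import Pool.Agent.K3h88.LCT.Stm
import Pool.Agent.Helper585.Wk.Top3d

/-!
# The Euler characteristic of a contractible complex (LCT brick CHI)
-/

set_option autoImplicit false

namespace Pool.Agent.K3h57.LCT

open Pool.Agent.Helper381 Pool.Agent.Helper585.Wk

/-- cohomology of a contractible space, by the cover with one member -/
theorem sing_univ (X : Type) [TopologicalSpace X] [ContractibleSpace X] (m : ℕ) :
    Nonempty (SingCoh ℚ X m ≃ₗ[ℚ] OrdCoh ℚ ({Set.univ} : Set (Set X)) m) := by
  have hne : Nonempty X := inferInstance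
  obtain ⟨e1⟩ := small_simplices (k := ℚ) ({Set.univ} : Set (Set X)) (by
    rintro C rfl
    exact isOpen_univ) (fun x => ⟨Set.univ, rfl, trivial⟩) m
  obtain ⟨e2⟩ := nerve_small (k := ℚ) ({Set.univ} : Set (Set X))
    (fun σ _ => ⟨Set.univ, rfl, Set.subset_univ _, by rintro C rfl _; exact subset_rfl⟩)
    (by
      rintro C rfl
      have hc : ContractibleSpace (Set.univ : Set X) :=
        (Homeomorph.Set.univ X).contractibleSpace_iff.2 ‹_›
      obtain ⟨p, ⟨F⟩⟩ := id_nullhomotopic (Set.univ : Set X)
      exact coneData_of_nullhomotopic _ p F) m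
  exact ⟨e1.trans e2⟩

/-- CHI -/
theorem chi : Pool.Agent.K3h88.LCT.StmChi := by
  intro n K hK
  have hne : Nonempty K.space := inferInstance
  set N := max K.cov.ncard 1 with hN
  rw [← chi_cov K N (le_max_left _ _), ← euler_ord_306 (cov_finite_306 K) N (le_max_left _ _)]
  have e : ∑ m ∈ Finset.range N, (-1 : ℤ) ^ m * (Module.finrank ℚ (OrdCoh ℚ K.cov m) : ℤ) =
      ∑ m ∈ Finset.range N, (-1 : ℤ) ^ m *
        (Module.finrank ℚ (OrdCoh ℚ ({Set.univ} : Set (Set K.space)) m) : ℤ) := by
    refine Finset.sum_congr rfl fun i _ => ?_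
    obtain ⟨e1⟩ := sing_cov K i
    obtain ⟨e2⟩ := sing_univ K.space i
    rw [(e1.symm.trans e2).finrank_eq]
  have hfin : ({Set.univ} : Set (Set K.space)).Finite := Set.finite_singleton _
  have hcard : ({Set.univ} : Set (Set K.space)).ncard = 1 := Set.ncard_singleton _
  rw [e, euler_ord_306 hfin N (by rw [hcard]; exact le_max_right _ _)]
  rw [Finset.sum_eq_single_of_mem 0 (by rw [Finset.mem_range, hN]; exact lt_max_of_lt_right one_pos)]
  · have : Unique (Ch ({Set.univ} : Set (Set K.space)) 0) :=
      { default := ⟨fun _ => Set.univ, fun i j h => absurd h (by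
            have : i = j := Fin.ext (by omega)
            rw [this]
            exact lt_irrefl _), fun _ => rfl⟩
        uniq := fun c => by
          apply Subtype.ext
          funext i
          exact c.2.2 i }
    rw [Module.finrank_pi, Fintype.card_unique]
    simp
  · intro b _ hb
    have : IsEmpty (Ch ({Set.univ} : Set (Set K.space)) b) :=
      isEmpty_Ch hfin b (by rw [hcard]; omega)
    rw [Module.finrank_zero_of_subsingleton]
    simp

end Pool.Agent.K3h57.LCT
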